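import Pool.Agent.H89.R18.Sep

/-!
# `MP_c11efe_an`: the exact maximum for linearly separated and for convex domains, for every `n`

Definitions used in the statement. From `Pool/Agent/H86/IR/Defs.lean` and `Targets2.lean` (the
extended complex plane is `OnePoint ℂ`):

* `inv1`, `HarmS g p`: `g` is harmonic at the point `p` of the extended plane;
* `IsGreen B a g`: `g` is the classical Green function of `B` with pole `a`;
* `HasIR B a r`: `r = exp (lim (g z + log |z - a|))` is the inner radius of `B` at `a`;
* `GenIR B a r`: `r` is the supremum of the inner radii at `a` of the subdomains of `B` which have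
  a classical Green function;
* `Adm n B a`: `n` pairwise disjoint domains `B k` of the extended plane, `a k ∈ B k ∩ [-1, 1]`;
* `fin S`: the set `S` of finite points as a subset of the extended plane.

From `Pool/Agent/H89/R18`:

* `pol n x k = x k` as a complex number (`k < n`);
* `LineSep A B`: for some real `α β s`, `α x + β y < s` on `A` and `s < α x + β y` on `B`, that is
  `A` and `B` lie on different sides of a straight line of the plane;
* `SepProds n`: the products of the inner radii for the admissible systems with increasing poles in
  which neighbouring domains are separated by a straight line;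
* `ConvProds n`: the products of the inner radii for the admissible systems of convex domains.
-/

set_option autoImplicit false

namespace Pool.Agent.Results.MP_c11efe_an.LinearlySeparated

open Pool.Agent.H86.IR Pool.Agent.H89.R18

/-- For every `n ≥ 2` the maximal product of the inner radii is exactly `π² (4 / (π n))ⁿ` for the
systems in which neighbouring domains are separated by straight lines, and for the systems of
convex domains; the upper bound also holds for the generalized inner radii. -/
theorem result (n : ℕ) (hn : 2 ≤ n) :
    IsGreatest (SepProds n) (Real.pi ^ 2 * (4 / (Real.pi * n)) ^ n) ∧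
    IsGreatest (ConvProds n) (Real.pi ^ 2 * (4 / (Real.pi * n)) ^ n) ∧
    ∀ (B : Fin n → Set (OnePoint ℂ)) (x : ℕ → ℝ) (r : Fin n → ℝ),
      (∀ i j, i < j → j < n → x i < x j) → Adm n B (pol n x) →
      (∀ (k : ℕ) (h : k + 1 < n), LineSep (B ⟨k, by omega⟩) (B ⟨k + 1, h⟩)) →
      (∀ k, GenIR (B k) (pol n x k) (r k)) →
      ∏ k, r k ≤ Real.pi ^ 2 * (4 / (Real.pi * n)) ^ n :=
  ⟨sep_greatest hn, conv_greatest hn, fun _ _ _ hx hA hs hr => sep_upper hn hx hA hs (Or.inr hr)⟩

end Pool.Agent.Results.MP_c11efe_an.LinearlySeparated
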