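import Pool.Agent.H89.R18.Cor

/-!
# `MP_c11efe_an`: the maximal product of inner radii for every system of poles

Definitions used in the statement. From `Pool/Agent/H86/IR/Defs.lean` (the extended complex plane
is `OnePoint ℂ`):

* `inv1`, `HarmS g p`: `g` is harmonic at the point `p` of the extended plane;
* `IsGreen B a g`: `g` is the classical Green function of `B` with pole `a`;
* `HasIR B a r`: `r = exp (lim (g z + log |z - a|))` is the inner radius of `B` at `a`;
* `GenIR B a r`: `r` is the supremum of the inner radii at `a` of the subdomains of `B` which have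
  a classical Green function;
* `Adm n B a`: `n` pairwise disjoint domains `B k` of the extended plane, `a k ∈ B k ∩ [-1, 1]`.

From `Pool/Agent/H89/R18`:

* `pol n x k = x k` as a complex number (`k < n`);
* `phi t = t - 1 - log t`;
* `defect n x = ∑ k < n - 1, phi (n (x (k+1) - x k) / 2) + n (2 - (x (n-1) - x 0))`.
-/

set_option autoImplicit false

namespace Pool.Agent.Results.MP_c11efe_an.PoleSystems

open Pool.Agent.H86.IR Pool.Agent.H89.R18

/-- For every system of poles `-1 ≤ x 0 < … < x (n - 1) ≤ 1` the maximal product of the inner radii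
is `(4 / (π n))ⁿ` up to a factor between `exp (-4 T) π² / 4` and `10⁵ exp (-T / 4)`, `T` being the
defect of the poles. Hence `T ≤ 4 log (10⁵ / κ)` for every system with a product at least
`κ (4 / (π n))ⁿ`, and its poles are equidistributed. -/
theorem result (n : ℕ) (hn : 2 ≤ n) (x : ℕ → ℝ) (hx : ∀ i j, i < j → j < n → x i < x j)
    (hseg : ∀ k < n, |x k| ≤ 1) :
    (∃ (B : Fin n → Set (OnePoint ℂ)) (r : Fin n → ℝ), Adm n B (pol n x) ∧
      (∀ k, HasIR (B k) (pol n x k) (r k)) ∧
      Real.pi ^ 2 / 4 * (4 / (Real.pi * n)) ^ n * Real.exp (-(4 * defect n x)) ≤ ∏ k, r k) ∧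
    ∀ (B : Fin n → Set (OnePoint ℂ)) (r : Fin n → ℝ), Adm n B (pol n x) →
      ((∀ k, HasIR (B k) (pol n x k) (r k)) ∨ (∀ k, GenIR (B k) (pol n x k) (r k))) →
      ∏ k, r k ≤ 10 ^ 5 * (4 / (Real.pi * n)) ^ n * Real.exp (-(defect n x / 4)) ∧
      ∀ κ : ℝ, 0 < κ → κ * (4 / (Real.pi * n)) ^ n ≤ ∏ k, r k →
        defect n x ≤ 4 * Real.log (10 ^ 5 / κ) ∧
        ∀ m < n, |x m + 1 - 2 * m / n| ≤ 4 * Real.sqrt (4 * Real.log (10 ^ 5 / κ) / n) +
          3 * (4 * Real.log (10 ^ 5 / κ)) / n := by
  refine ⟨lower_main hn hx hseg, fun B r hA hr => ?_⟩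
  have hup : ∏ k, r k ≤ 10 ^ 5 * (4 / (Real.pi * n)) ^ n * Real.exp (-(defect n x / 4)) := by
    rcases hr with h | h
    · exact upper_main hn hx hA h
    · exact upper_gen hn hx hA h
  refine ⟨hup, fun κ hκ h => ?_⟩
  have h1 := defect_le hn hκ hup h
  exact ⟨h1, fun m hm => pole_close hn hx hseg h1 hm⟩

end Pool.Agent.Results.MP_c11efe_an.PoleSystems
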