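import Pool.Agent.H86.IR.All

/-!
# `MP_c11efe_an`: the order of the maximal product of inner radii with poles on a segment

Definitions used in the statement (`Pool/Agent/H86/IR/Defs.lean`; the extended complex plane is
`OnePoint ℂ`):

* `inv1`, `HarmS g p`: `g` is harmonic at the point `p` of the extended plane;
* `IsGreen B a g`: `g` is the classical Green function of `B` with pole `a`;
* `HasIR B a r`: `r = exp (lim (g z + log |z - a|))` is the inner radius of `B` at `a`;
* `GenIR B a r`: `r` is the supremum of the inner radii at `a` of the subdomains of `B` which have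
  a classical Green function;
* `Adm n B a`: `n` pairwise disjoint domains `B k` of the extended plane, `a k ∈ B k ∩ [-1, 1]`;
* `Prods n`: the set of all products `∏ r (B k, a k)` of inner radii.
-/

set_option autoImplicit false

namespace Pool.Agent.Results.MP_c11efe_an.SharpOrder

open Pool.Agent.H86.IR Filter Topology

/-- The supremum `M_n` of the products satisfies
`π² (4 / (π n))ⁿ ≤ M_n ≤ 10⁵ (4 / (π n))ⁿ` for all `n ≥ 2`; the upper bound also holds for the
products of the generalized inner radii. Hence `n M_n^(1/n) → 4 / π`. -/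
theorem result :
    (∀ n : ℕ, 2 ≤ n →
      Real.pi ^ 2 * (4 / (Real.pi * n)) ^ n ∈ Prods n ∧
      (∀ P ∈ Prods n, P ≤ 10 ^ 5 * (4 / (Real.pi * n)) ^ n) ∧
      ∀ (B : Fin n → Set (OnePoint ℂ)) (a : Fin n → ℂ) (r : Fin n → ℝ), Adm n B a →
        (∀ k, GenIR (B k) (a k) (r k)) → ∏ k, r k ≤ 10 ^ 5 * (4 / (Real.pi * n)) ^ n) ∧
    Tendsto (fun n : ℕ => n * (sSup (Prods n)) ^ (1 / (n : ℝ))) atTop (𝓝 (4 / Real.pi)) := by
  have hup : ∀ n : ℕ, 2 ≤ n → ∀ P ∈ Prods n, P ≤ 10 ^ 5 * (4 / (Real.pi * n)) ^ n :=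
    Pool.Agent.H86.IR.All.upp
  refine ⟨fun n hn => ⟨Pool.Agent.H86.IR.All.lo2 n hn, hup n hn, fun B a r hB hr =>
    Pool.Agent.H86.IR.All.gen n B a r hn hB hr⟩, ?_⟩
  refine Pool.Agent.H86.IR.te2 _ fun n hn => ⟨?_, ?_⟩
  · exact le_csSup ⟨_, fun P hP => hup n hn P hP⟩ (Pool.Agent.H86.IR.All.lo2 n hn)
  · exact csSup_le ⟨_, Pool.Agent.H86.IR.All.lo2 n hn⟩ fun P hP => hup n hn P hP

end Pool.Agent.Results.MP_c11efe_an.SharpOrder
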